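import Pool.Agent.H831Z.UMain

namespace Pool.Agent.Results.MP_b531f7_gt.BelowTwo

open H831Z.UDefs
open scoped ENNReal

/-- For `1 ≤ p < 2` a union of two isometric subsets of `ℓ_p` can need arbitrarily large
distortion in `ℓ_p`. -/
theorem result (p : ℝ≥0∞) [Fact (1 ≤ p)] (hp : p < 2) (C : ℝ) :
    ∃ (X : Type) (_ : MetricSpace X) (A B : Set X), A ∪ B = Set.univ ∧ IsoEmb p A ∧ IsoEmb p B ∧
      ¬ DistEmb p X C :=
  H831Z.Un.main p hp C

end Pool.Agent.Results.MP_b531f7_gt.BelowTwo
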